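import Pool.Agent.R851.PolyDegBridge

/-!
# Isolated critical points are polynomial of degree `O(μ^{1/n})`

For every `n ≥ 1` there is a constant `a` such that every holomorphic germ
`f : (ℂⁿ, 0) → (ℂ, 0)` with an isolated critical point of Milnor number `μ` is right equivalent to
a polynomial of degree at most `a μ^{1/n}`.

Idea of the proof.  Let `J = (∂f/∂x₁, …, ∂f/∂x_n)`, `I = m J²` and `A = 𝒪/I`, an algebra of
dimension `≤ (1 + n + n²) μ`.  By Tougeron's lemma every `g ≡ f` mod `I` is right equivalent to `f`.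
So it is enough to find a local coordinate system `ψ` such that all elements of `A` are polynomials
of degree `≤ 2 k - 1` in the classes of `ψ₁, …, ψ_n`, where `(k/n)^n ≤ dim A`.  Choose a tuple
`a ∈ Aⁿ` such that the dimensions of the spaces `W_d(a)` of the polynomials of degree `≤ d` in the
`a_i` are maximal.  If `p(a) = 0` for a polynomial `p` of degree `≤ d` then, perturbing `a`, one
sees that `b (∂p/∂x_i)(a) ∈ W_d(a)` for all `b ∈ A`.  So the ideal `T` of the top degree forms of the
relations between the `a_i` satisfies `(x₁, …, x_n)² ∂T/∂x_i ⊆ T`, and hence it contains all forms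
of degree `2 k` if `k` is the least degree of an element of `T`.
-/

set_option autoImplicit false

open MvPolynomial Filter Topology Pool.Agent.R851.PolyDeg

namespace Pool.Agent.Results.MP_bcd42e_ag.DegreeBound

/-- For every `n ≥ 1` there is a constant `a > 0` such that for every holomorphic germ
`f : (ℂⁿ, 0) → (ℂ, 0)` with an isolated critical point at the origin there are polynomials which are
right equivalent to `f`, and their least degree `d(f)` satisfies `d(f) ≤ a μ(f)^{1/n}`. -/
theorem result (n : ℕ) (hn : 1 ≤ n) : ∃ a : ℝ, 0 < a ∧ ∀ f : (Fin n → ℂ) → ℂ, IsolatedCritical f →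
    (polyDegrees f).Nonempty ∧ (analyticOrder f : ℝ) ≤ a * (milnor f : ℝ) ^ (1 / (n : ℝ)) := by
  have hn0 : (0 : ℝ) < n := by exact_mod_cast hn
  refine ⟨2 * ((n : ℝ) ^ n * (1 + n + n * n)) ^ (1 / (n : ℝ)), by positivity, fun f hf => ?_⟩
  obtain ⟨q, k, hq, hqd, hk⟩ := main hn hf.isoCrit
  rw [← milnor_eq] at hk
  have hmem : q.totalDegree ∈ polyDegrees f := ⟨q, rfl, hq⟩
  refine ⟨⟨_, hmem⟩, ?_⟩
  have h1 : analyticOrder f ≤ 2 * k := (Nat.sInf_le hmem).trans (by omega)
  have h2 : (k : ℝ) ≤ ((n : ℝ) ^ n * (1 + n + n * n)) ^ (1 / (n : ℝ)) *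
      (milnor f : ℝ) ^ (1 / (n : ℝ)) := by
    rw [← Real.mul_rpow (by positivity) (by positivity)]
    have h3 : (k : ℝ) = ((k : ℝ) ^ n) ^ (1 / (n : ℝ)) := by
      rw [← Real.rpow_natCast, ← Real.rpow_mul (by positivity), mul_one_div_cancel hn0.ne',
        Real.rpow_one]
    rw [h3]
    refine Real.rpow_le_rpow (by positivity) ?_ (by positivity)
    have h4 : ((k ^ n : ℕ) : ℝ) ≤ ((n ^ n * ((1 + n + n * n) * milnor f) : ℕ) : ℝ) := by
      exact_mod_cast hk
    push_cast at h4
    linarith
  calc (analyticOrder f : ℝ) ≤ ((2 * k : ℕ) : ℝ) := by exact_mod_cast h1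
    _ = 2 * (k : ℝ) := by push_cast; ring
    _ ≤ 2 * (((n : ℝ) ^ n * (1 + n + n * n)) ^ (1 / (n : ℝ)) *
      (milnor f : ℝ) ^ (1 / (n : ℝ))) := by linarith
    _ = _ := by ring

end Pool.Agent.Results.MP_bcd42e_ag.DegreeBound
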